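import Mathlib
import Pool.Agent.H925R3.DC.Stubs

/-! Task LSF (helper439): Fourier expansion of a product of mean zero functions. -/

set_option autoImplicit false

namespace Pool.Agent.H439DC

open Pool.Agent.H925R3.DC Finset Pool.Agent.Helper112

theorem LSF_orth (p : ℕ) (hp : 0 < p) (m : ℤ) :
    ∑ b ∈ range p, ee ((b : ℝ) * ((m : ℝ) / p)) = if (p : ℤ) ∣ m then (p : ℂ) else 0 := by
  have hpR : (p : ℝ) ≠ 0 := by exact_mod_cast hp.ne'
  have h0 : ∀ b ∈ range p, ee ((b : ℝ) * ((m : ℝ) / p)) = ee ((m : ℝ) / p) ^ b :=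
    fun b _ => ls_ee_nat_mul b _
  rw [sum_congr rfl h0]
  by_cases h : (p : ℤ) ∣ m
  · rw [if_pos h]
    obtain ⟨q, rfl⟩ := h
    have : (((p : ℤ) * q : ℤ) : ℝ) / p = (q : ℤ) := by
      push_cast
      field_simp
    rw [this, ls_ee_int]
    simp
  · rw [if_neg h]
    have hne : ee ((m : ℝ) / p) ≠ 1 := by
      intro h1
      obtain ⟨q, hq⟩ := ls_ee_eq_one h1
      apply h
      refine ⟨q, ?_⟩
      have : (m : ℝ) = p * q := by
        rw [div_eq_iff hpR] at hq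
        rw [hq]
        ring
      exact_mod_cast this
    rw [geom_sum_eq hne, ← ls_ee_nat_mul]
    have : (p : ℝ) * ((m : ℝ) / p) = (m : ℤ) := by field_simp
    rw [this, ls_ee_int, sub_self, zero_div]

/-- Fourier coefficients -/
noncomputable def lsfC (p : ℕ) (g : ℤ → ℝ) (b : ℕ) : ℂ :=
  (1 / p : ℂ) * ∑ t ∈ range p, (g t : ℂ) * ee (-((t : ℝ) * b / p))

theorem LSF_inv (p : ℕ) (hp : 0 < p) (g : ℤ → ℝ)
    (hg : ∀ n n' : ℤ, (p : ℤ) ∣ n - n' → g n = g n') (n : ℕ) :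
    ((g n : ℝ) : ℂ) = ∑ b ∈ range p, lsfC p g b * ee ((n : ℝ) * b / p) := by
  have hpC : (p : ℂ) ≠ 0 := by exact_mod_cast hp.ne'
  unfold lsfC
  have h1 : ∀ b ∈ range p, (1 / p : ℂ) * (∑ t ∈ range p, (g t : ℂ) * ee (-((t : ℝ) * b / p))) *
      ee ((n : ℝ) * b / p) = ∑ t ∈ range p, (1 / p : ℂ) * (g t : ℂ) *
        ee ((b : ℝ) * ((((n : ℤ) - (t : ℤ) : ℤ) : ℝ) / p)) := by
    intro b _
    rw [mul_sum, sum_mul]
    refine sum_congr rfl fun t _ => ?_
    have h2 : ee ((b : ℝ) * ((((n : ℤ) - (t : ℤ) : ℤ) : ℝ) / p)) =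
        ee (-((t : ℝ) * b / p)) * ee ((n : ℝ) * b / p) := by
      rw [← ls_ee_add]
      congr 1
      push_cast
      ring
    rw [h2]
    ring
  rw [sum_congr rfl h1, sum_comm]
  have h3 : ∀ t ∈ range p, ∑ b ∈ range p, (1 / p : ℂ) * (g t : ℂ) *
      ee ((b : ℝ) * ((((n : ℤ) - (t : ℤ) : ℤ) : ℝ) / p)) =
      if t = n % p then ((g n : ℝ) : ℂ) else 0 := by
    intro t ht
    rw [← mul_sum, LSF_orth p hp]
    have hmod : (p : ℤ) ∣ (n : ℤ) - (t : ℤ) ↔ t = n % p := by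
      have ht' := mem_range.1 ht
      rw [← Nat.modEq_iff_dvd, Nat.ModEq, Nat.mod_eq_of_lt ht']
    by_cases h : t = n % p
    · rw [if_pos (hmod.2 h), if_pos h, hg n t (hmod.2 h)]
      field_simp
    · rw [if_neg (fun h' => h (hmod.1 h')), if_neg h, mul_zero]
  rw [sum_congr rfl h3, sum_ite_eq', if_pos (mem_range.2 (Nat.mod_lt n hp))]

theorem LSF_par (p : ℕ) (hp : 0 < p) (g : ℤ → ℝ) :
    ∑ b ∈ range p, ‖lsfC p g b‖ ^ 2 = (1 / p) * ∑ t ∈ range p, g t ^ 2 := by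
  have hpC : (p : ℂ) ≠ 0 := by exact_mod_cast hp.ne'
  have key : ((∑ b ∈ range p, ‖lsfC p g b‖ ^ 2 : ℝ) : ℂ) =
      (((1 / p) * ∑ t ∈ range p, g t ^ 2 : ℝ) : ℂ) := by
    push_cast
    have h1 : ∀ b ∈ range p, ((‖lsfC p g b‖ : ℝ) : ℂ) ^ 2 = ∑ t ∈ range p, ∑ s ∈ range p,
        (1 / p : ℂ) * (1 / p : ℂ) * ((g t : ℂ) * (g s : ℂ)) *
          ee ((b : ℝ) * ((((s : ℤ) - (t : ℤ) : ℤ) : ℝ) / p)) := by
      intro b _
      rw [← Complex.mul_conj']
      unfold lsfC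
      rw [map_mul, map_sum]
      have h2 : (starRingEnd ℂ) (1 / p : ℂ) = 1 / p := by
        rw [map_div₀, map_one, Complex.conj_natCast]
      rw [h2, mul_mul_mul_comm, sum_mul_sum, mul_sum]
      refine sum_congr rfl fun t _ => ?_
      rw [mul_sum]
      refine sum_congr rfl fun s _ => ?_
      rw [map_mul, Complex.conj_ofReal, ls_conj_ee, neg_neg]
      have h3 : ee ((b : ℝ) * ((((s : ℤ) - (t : ℤ) : ℤ) : ℝ) / p)) =
          ee (-((t : ℝ) * b / p)) * ee ((s : ℝ) * b / p) := by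
        rw [← ls_ee_add]
        congr 1
        push_cast
        ring
      rw [h3]
      ring
    rw [sum_congr rfl h1, sum_comm, mul_sum]
    refine sum_congr rfl fun t ht => ?_
    rw [sum_comm]
    have h4 : ∀ s ∈ range p, ∑ b ∈ range p, (1 / p : ℂ) * (1 / p : ℂ) * ((g t : ℂ) * (g s : ℂ)) *
        ee ((b : ℝ) * ((((s : ℤ) - (t : ℤ) : ℤ) : ℝ) / p)) =
        if s = t then (1 / p : ℂ) * (g t : ℂ) ^ 2 else 0 := by
      intro s hs
      rw [← mul_sum, LSF_orth p hp]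
      have hmod : (p : ℤ) ∣ (s : ℤ) - (t : ℤ) ↔ s = t := by
        rw [← Nat.modEq_iff_dvd, Nat.ModEq, Nat.mod_eq_of_lt (mem_range.1 ht),
          Nat.mod_eq_of_lt (mem_range.1 hs)]
        exact eq_comm
      by_cases h : s = t
      · rw [if_pos (hmod.2 h), if_pos h, h]
        field_simp
      · rw [if_neg (fun h' => h (hmod.1 h')), if_neg h, mul_zero]
    rw [sum_congr rfl h4, sum_ite_eq', if_pos ht]
  exact_mod_cast key

theorem LSF_main (g : ℕ → ℤ → ℝ) (S : Finset ℕ) : (∀ p ∈ S, p.Prime) →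
    (∀ p ∈ S, ∀ n n' : ℤ, (p : ℤ) ∣ n - n' → g p n = g p n') →
    (∀ p ∈ S, ∑ t ∈ range p, g p t = 0) → (∀ p ∈ S, ∑ t ∈ range p, g p t ^ 2 ≤ p) →
    ∀ (B : Finset ℕ) (α : ℕ → ℂ), ‖∑ n ∈ B, α n * ((∏ p ∈ S, g p n : ℝ) : ℂ)‖ ^ 2 ≤
      ∑ a ∈ (range (∏ p ∈ S, p)).filter (fun a => a.Coprime (∏ p ∈ S, p)),
        ‖∑ n ∈ B, α n * ee (n * a / ((∏ p ∈ S, p : ℕ) : ℝ))‖ ^ 2 := by
  induction S using Finset.induction_on with
  | empty =>
    intro _ _ _ _ B α
    simp [ls_ee_zero]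
  | insert p S hpS ih =>
    intro h1 h2 h3 h4 B α
    have hp : p.Prime := h1 p (mem_insert_self p S)
    have hp0 : 0 < p := hp.pos
    have ih' := ih (fun q hq => h1 q (mem_insert_of_mem hq))
      (fun q hq => h2 q (mem_insert_of_mem hq)) (fun q hq => h3 q (mem_insert_of_mem hq))
      (fun q hq => h4 q (mem_insert_of_mem hq))
    have hcop : Nat.Coprime p (∏ q ∈ S, q) := by
      apply Nat.Coprime.prod_right
      intro q hq
      rw [Nat.coprime_primes hp (h1 q (mem_insert_of_mem hq))]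
      rintro rfl
      exact hpS hq
    have hM0 : 0 < ∏ q ∈ S, q := prod_pos fun q hq => (h1 q (mem_insert_of_mem hq)).pos
    rw [prod_insert hpS]
    set M := ∏ q ∈ S, q with hM
    have hpR : (p : ℝ) ≠ 0 := by exact_mod_cast hp0.ne'
    have hMR : (M : ℝ) ≠ 0 := by exact_mod_cast hM0.ne'
    -- the coefficients
    have hc0 : lsfC p (g p) 0 = 0 := by
      unfold lsfC
      have h5 : ∑ t ∈ range p, ((g p t : ℝ) : ℂ) * ee (-((t : ℝ) * (0 : ℕ) / p)) =
          ((∑ t ∈ range p, g p t : ℝ) : ℂ) := by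
        rw [Complex.ofReal_sum]
        refine sum_congr rfl fun t _ => ?_
        simp [ls_ee_zero]
      rw [h5, h3 p (mem_insert_self p S)]
      simp
    have hsplit : ∀ f : ℕ → ℂ, ∑ b ∈ range p, f b = f 0 + ∑ b ∈ Ico 1 p, f b := by
      intro f
      rw [range_eq_Ico, sum_eq_sum_Ico_succ_bot hp0]
    have hinv : ∀ n : ℕ, ((g p n : ℝ) : ℂ) =
        ∑ b ∈ Ico 1 p, lsfC p (g p) b * ee ((n : ℝ) * b / p) := by
      intro n
      rw [LSF_inv p hp0 (g p) (h2 p (mem_insert_self p S)) n, hsplit, hc0, zero_mul, zero_add]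
    have hpar : ∑ b ∈ Ico 1 p, ‖lsfC p (g p) b‖ ^ 2 ≤ 1 := by
      have h5 := LSF_par p hp0 (g p)
      rw [range_eq_Ico, sum_eq_sum_Ico_succ_bot hp0, hc0, norm_zero] at h5
      have h6 : (1 / (p : ℝ)) * ∑ t ∈ range p, g p t ^ 2 ≤ 1 := by
        rw [one_div, inv_mul_le_iff₀ (by positivity), mul_one]
        exact h4 p (mem_insert_self p S)
      rw [← range_eq_Ico] at h5
      have h7 : (0 : ℝ) ^ 2 = 0 := by norm_num
      rw [h7, zero_add] at h5
      exact h5.le.trans h6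
    -- expansion
    have hexp : ∑ n ∈ B, α n * ((∏ q ∈ insert p S, g q n : ℝ) : ℂ) =
        ∑ b ∈ Ico 1 p, lsfC p (g p) b *
          ∑ n ∈ B, (α n * ee ((n : ℝ) * b / p)) * ((∏ q ∈ S, g q n : ℝ) : ℂ) := by
      have h5 : ∀ n ∈ B, α n * ((∏ q ∈ insert p S, g q n : ℝ) : ℂ) = ∑ b ∈ Ico 1 p,
          lsfC p (g p) b * ((α n * ee ((n : ℝ) * b / p)) * ((∏ q ∈ S, g q n : ℝ) : ℂ)) := by
        intro n _
        rw [prod_insert hpS, Complex.ofReal_mul, hinv n, sum_mul, mul_sum]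
        refine sum_congr rfl fun b _ => ?_
        ring
      rw [sum_congr rfl h5, sum_comm]
      refine sum_congr rfl fun b _ => ?_
      rw [mul_sum]
    rw [hexp]
    set x : ℕ → ℂ := fun b => ∑ n ∈ B, (α n * ee ((n : ℝ) * b / p)) *
      ((∏ q ∈ S, g q n : ℝ) : ℂ) with hx
    have hCS : ‖∑ b ∈ Ico 1 p, lsfC p (g p) b * x b‖ ^ 2 ≤ ∑ b ∈ Ico 1 p, ‖x b‖ ^ 2 := by
      have h5 : ‖∑ b ∈ Ico 1 p, lsfC p (g p) b * x b‖ ≤
          ∑ b ∈ Ico 1 p, ‖lsfC p (g p) b‖ * ‖x b‖ := by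
        refine (norm_sum_le _ _).trans (le_of_eq ?_)
        refine sum_congr rfl fun b _ => ?_
        rw [norm_mul]
      have h6 := sum_mul_sq_le_sq_mul_sq (Ico 1 p) (fun b => ‖lsfC p (g p) b‖) (fun b => ‖x b‖)
      have h7 : 0 ≤ ∑ b ∈ Ico 1 p, ‖x b‖ ^ 2 := sum_nonneg fun b _ => by positivity
      calc ‖∑ b ∈ Ico 1 p, lsfC p (g p) b * x b‖ ^ 2
          ≤ (∑ b ∈ Ico 1 p, ‖lsfC p (g p) b‖ * ‖x b‖) ^ 2 :=
            pow_le_pow_left₀ (norm_nonneg _) h5 2
        _ ≤ (∑ b ∈ Ico 1 p, ‖lsfC p (g p) b‖ ^ 2) * ∑ b ∈ Ico 1 p, ‖x b‖ ^ 2 := h6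
        _ ≤ 1 * ∑ b ∈ Ico 1 p, ‖x b‖ ^ 2 := mul_le_mul_of_nonneg_right hpar h7
        _ = _ := one_mul _
    refine hCS.trans ?_
    -- the induction hypothesis for each `b`
    set T : Finset ℕ := (range M).filter (fun a => a.Coprime M) with hT
    set F : ℕ → ℝ := fun a => ‖∑ n ∈ B, α n * ee (n * a / ((p * M : ℕ) : ℝ))‖ ^ 2 with hF
    have h5 : ∀ b ∈ Ico 1 p, ‖x b‖ ^ 2 ≤ ∑ a ∈ T, F ((b * M + a * p) % (p * M)) := by
      intro b _
      refine (ih' B (fun n => α n * ee ((n : ℝ) * b / p))).trans (le_of_eq ?_)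
      refine sum_congr rfl fun a _ => ?_
      rw [hF]
      simp only
      congr 2
      refine sum_congr rfl fun n _ => ?_
      rw [mul_assoc, ← ls_ee_add]
      congr 1
      have h6 : (((b * M + a * p) % (p * M) : ℕ) : ℝ) =
          (b : ℝ) * M + a * p - (p * M : ℝ) * (((b * M + a * p) / (p * M) : ℕ) : ℝ) := by
        have := Nat.mod_add_div (b * M + a * p) (p * M)
        have h7 : (((b * M + a * p) % (p * M) : ℕ) : ℝ) + ((p * M : ℕ) : ℝ) *
            (((b * M + a * p) / (p * M) : ℕ) : ℝ) = ((b * M + a * p : ℕ) : ℝ) := by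
          exact_mod_cast this
        push_cast at h7 ⊢
        linarith
      have h8 : (n : ℝ) * (((b * M + a * p) % (p * M) : ℕ) : ℝ) / ((p * M : ℕ) : ℝ) =
          ((n : ℝ) * b / p + n * a / (M : ℝ)) +
            ((-(n * ((b * M + a * p) / (p * M) : ℕ) : ℤ) : ℤ) : ℝ) := by
        rw [h6]
        generalize (b * M + a * p) / (p * M) = Q
        push_cast
        field_simp
        ring
      rw [h8, ls_ee_add _ (((-(n * ((b * M + a * p) / (p * M) : ℕ) : ℤ) : ℤ) : ℝ)), ls_ee_int,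
        mul_one]
    refine (sum_le_sum h5).trans ?_
    rw [← sum_product']
    have hinj : Set.InjOn (fun z : ℕ × ℕ => (z.1 * M + z.2 * p) % (p * M))
        ((Ico 1 p ×ˢ T : Finset (ℕ × ℕ)) : Set (ℕ × ℕ)) := by
      rintro ⟨b, a⟩ hz ⟨b', a'⟩ hz' heq
      simp only [coe_product, Set.mem_prod, mem_coe, mem_Ico, hT, mem_filter, mem_range] at hz hz'
      have heq' : b * M + a * p ≡ b' * M + a' * p [MOD p * M] := heq
      have e1 : b * M + a * p ≡ b' * M + a' * p [MOD p] := heq'.of_mul_right M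
      have e2 : b * M + a * p ≡ b' * M + a' * p [MOD M] := heq'.of_mul_left p
      have hb : b = b' := by
        have e3 : b * M ≡ b' * M [MOD p] := by
          have z1 : a * p ≡ a' * p [MOD p] := by
            have y1 : a * p ≡ 0 [MOD p] := (Nat.modEq_zero_iff_dvd).2 (dvd_mul_left _ _)
            have y2 : a' * p ≡ 0 [MOD p] := (Nat.modEq_zero_iff_dvd).2 (dvd_mul_left _ _)
            exact y1.trans y2.symm
          exact Nat.ModEq.add_right_cancel z1 e1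
        have e4 : b ≡ b' [MOD p] := Nat.ModEq.cancel_right_of_coprime hcop e3
        exact Nat.ModEq.eq_of_lt_of_lt e4 hz.1.2 hz'.1.2
      have ha : a = a' := by
        have e3 : a * p ≡ a' * p [MOD M] := by
          have z1 : b * M ≡ b' * M [MOD M] := by
            have y1 : b * M ≡ 0 [MOD M] := (Nat.modEq_zero_iff_dvd).2 (dvd_mul_left _ _)
            have y2 : b' * M ≡ 0 [MOD M] := (Nat.modEq_zero_iff_dvd).2 (dvd_mul_left _ _)
            exact y1.trans y2.symm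
          exact Nat.ModEq.add_left_cancel z1 e2
        have e4 : a ≡ a' [MOD M] := Nat.ModEq.cancel_right_of_coprime hcop.symm e3
        exact Nat.ModEq.eq_of_lt_of_lt e4 hz.2.1 hz'.2.1
      rw [hb, ha]
    have himg : (Ico 1 p ×ˢ T).image (fun z : ℕ × ℕ => (z.1 * M + z.2 * p) % (p * M)) ⊆
        (range (p * M)).filter (fun a => a.Coprime (p * M)) := by
      intro y hy
      obtain ⟨⟨b, a⟩, hz, rfl⟩ := mem_image.1 hy
      simp only [mem_product, mem_Ico, hT, mem_filter, mem_range] at hz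
      rw [mem_filter, mem_range]
      refine ⟨Nat.mod_lt _ (Nat.mul_pos hp0 hM0), ?_⟩
      have e1 : Nat.gcd ((b * M + a * p) % (p * M)) (p * M) = Nat.gcd (p * M) (b * M + a * p) :=
        (Nat.gcd_rec _ _).symm
      show Nat.gcd _ _ = 1
      rw [e1]
      show Nat.Coprime _ _
      apply Nat.Coprime.mul_left
      · have : Nat.Coprime p (b * M) := by
          apply Nat.Coprime.mul_right _ hcop
          rw [Nat.Prime.coprime_iff_not_dvd hp]
          intro hdvd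
          have := Nat.le_of_dvd (by omega) hdvd
          omega
        rw [Nat.add_comm]
        exact (Nat.coprime_mul_right_add_right p _ a).2 this
      · have : Nat.Coprime M (a * p) := Nat.Coprime.mul_right hz.2.2.symm hcop.symm
        exact (Nat.coprime_mul_right_add_right M _ b).2 this
    have e9 : ∑ z ∈ Ico 1 p ×ˢ T, F ((z.1 * M + z.2 * p) % (p * M)) =
        ∑ y ∈ (Ico 1 p ×ˢ T).image (fun z : ℕ × ℕ => (z.1 * M + z.2 * p) % (p * M)), F y :=
      (sum_image hinj).symm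
    rw [e9]
    exact sum_le_sum_of_subset_of_nonneg himg (fun y _ _ => by rw [hF]; positivity)

theorem lsf : LSF := by
  intro S g h1 h2 h3 h4 B
  have h := LSF_main g S h1 h2 h3 h4 B (fun _ => 1)
  have e : ‖∑ n ∈ B, (1 : ℂ) * ((∏ p ∈ S, g p n : ℝ) : ℂ)‖ ^ 2 = (∑ n ∈ B, ∏ p ∈ S, g p n) ^ 2 := by
    have : ∑ n ∈ B, (1 : ℂ) * ((∏ p ∈ S, g p n : ℝ) : ℂ) =
        ((∑ n ∈ B, ∏ p ∈ S, g p n : ℝ) : ℂ) := by
      rw [Complex.ofReal_sum]
      exact sum_congr rfl fun n _ => one_mul _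
    rw [this, Complex.norm_real, Real.norm_eq_abs, sq_abs]
  simp only [one_mul] at h e
  rw [e] at h
  exact h

end Pool.Agent.H439DC
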