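import Mathlib
import Pool.Agent.H925R3.DC.Stubs

/-! Task REDA (helper439): reduction of the sum of two integral points. -/

set_option autoImplicit false

namespace Pool.Agent.H439DC

open Pool.Agent.H925R3.DC

section crv
variable {F : Type} [Field F]

theorem reda_eq (a b x y : F) : (crv F a b).Equation x y ↔ y ^ 2 = x ^ 3 + a * x + b := by
  rw [WeierstrassCurve.Affine.equation_iff]
  simp [crv]

theorem reda_ns (h2 : (2 : F) ≠ 0) (a b x y : F) (hd : 4 * a ^ 3 + 27 * b ^ 2 ≠ 0)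
    (h : y ^ 2 = x ^ 3 + a * x + b) : (crv F a b).Nonsingular x y := by
  have hΔ : (crv F a b).Δ ≠ 0 := by
    have e : (crv F a b).Δ = -(2 ^ 4 * (4 * a ^ 3 + 27 * b ^ 2)) := by
      simp only [crv, WeierstrassCurve.Δ, WeierstrassCurve.b₂, WeierstrassCurve.b₄,
        WeierstrassCurve.b₆, WeierstrassCurve.b₈]
      ring
    rw [e]
    exact neg_ne_zero.2 (mul_ne_zero (pow_ne_zero _ h2) hd)
  rw [← WeierstrassCurve.Affine.equation_iff_nonsingular_of_Δ_ne_zero hΔ, reda_eq]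
  exact h

theorem reda_add [DecidableEq F] (a b x₁ y₁ x₂ y₂ l x₃ y₃ : F)
    (h₁ : (crv F a b).Nonsingular x₁ y₁) (h₂ : (crv F a b).Nonsingular x₂ y₂)
    (hxy : ¬ (x₁ = x₂ ∧ y₁ = -y₂)) (hl : l = (crv F a b).slope x₁ x₂ y₁ y₂)
    (hx : x₃ = l ^ 2 - x₁ - x₂) (hy : y₃ = -(l * (x₃ - x₁) + y₁)) :
    ∃ h₃ : (crv F a b).Nonsingular x₃ y₃,
      (.some x₁ y₁ h₁ : (crv F a b).Point) + .some x₂ y₂ h₂ = .some x₃ y₃ h₃ := by
  have hneg : (crv F a b).negY x₂ y₂ = -y₂ := by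
    simp [crv, WeierstrassCurve.Affine.negY]
  have hxy' : ¬ (x₁ = x₂ ∧ y₁ = (crv F a b).negY x₂ y₂) := by
    rw [hneg]
    exact hxy
  have e1 : (crv F a b).addX x₁ x₂ ((crv F a b).slope x₁ x₂ y₁ y₂) = x₃ := by
    rw [← hl, hx, WeierstrassCurve.Affine.addX]
    simp [crv]
  have e2 : (crv F a b).addY x₁ x₂ y₁ ((crv F a b).slope x₁ x₂ y₁ y₂) = y₃ := by
    rw [WeierstrassCurve.Affine.addY, WeierstrassCurve.Affine.negAddY, e1, ← hl, hy,
      WeierstrassCurve.Affine.negY]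
    simp [crv]
  subst e1
  subst e2
  exact ⟨_, WeierstrassCurve.Affine.Point.add_some hxy'⟩

end crv

theorem REDA_div {K k : Type} [Field K] [Field k] (O : Subring K) (φ : O →+* k)
    (hu : ∀ x : O, φ x ≠ 0 → (x : K)⁻¹ ∈ O) (u v : O) (hv : φ v ≠ 0) :
    (v : K) ≠ 0 ∧ ∃ w : O, (w : K) = (u : K) / (v : K) ∧ φ w = φ u / φ v := by
  have hv0 : (v : K) ≠ 0 := by
    intro h
    apply hv
    have : v = 0 := Subtype.ext h
    rw [this, map_zero]
  refine ⟨hv0, ⟨(u : K) / (v : K), ?_⟩, rfl, ?_⟩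
  · rw [div_eq_mul_inv]
    exact O.mul_mem u.2 (hu v hv)
  · rw [eq_div_iff hv, ← map_mul]
    congr 1
    apply Subtype.ext
    show (u : K) / (v : K) * (v : K) = u
    exact div_mul_cancel₀ _ hv0

theorem REDA_slope (K k : Type) [Field K] [Field k] [DecidableEq K] [DecidableEq k]
    (O : Subring K) (φ : O →+* k)
    (hu : ∀ x : O, φ x ≠ 0 → (x : K)⁻¹ ∈ O) (h2 : (2 : k) ≠ 0) (a b : O)
    (x₁ y₁ x₂ y₂ : O) (e₁ : y₁ ^ 2 = x₁ ^ 3 + a * x₁ + b) (e₂ : y₂ ^ 2 = x₂ ^ 3 + a * x₂ + b)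
    (hne : ¬ (φ x₁ = φ x₂ ∧ φ y₁ = - φ y₂)) :
    ∃ l : O, (l : K) = (crv K a b).slope (x₁ : K) (x₂ : K) (y₁ : K) (y₂ : K) ∧
      φ l = (crv k (φ a) (φ b)).slope (φ x₁) (φ x₂) (φ y₁) (φ y₂) := by
  by_cases hx : φ x₁ = φ x₂
  · have hy : φ y₁ ≠ - φ y₂ := fun h => hne ⟨hx, h⟩
    have f₁ : φ y₁ ^ 2 = φ x₁ ^ 3 + φ a * φ x₁ + φ b := by
      have := congrArg φ e₁
      simpa using this
    have f₂ : φ y₂ ^ 2 = φ x₂ ^ 3 + φ a * φ x₂ + φ b := by
      have := congrArg φ e₂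
      simpa using this
    have hyy : φ y₁ = φ y₂ := by
      have h3 : (φ y₁ - φ y₂) * (φ y₁ + φ y₂) = 0 := by
        have : φ y₁ ^ 2 = φ y₂ ^ 2 := by rw [f₁, f₂, hx]
        linear_combination this
      rcases mul_eq_zero.1 h3 with h | h
      · exact sub_eq_zero.1 h
      · exact absurd (eq_neg_of_add_eq_zero_left h) hy
    have hy0 : φ y₁ ≠ 0 := by
      intro h
      apply hy
      rw [← hyy, h, neg_zero]
    have hv : φ (y₁ + y₂) ≠ 0 := by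
      rw [map_add, ← hyy, ← two_mul]
      exact mul_ne_zero h2 hy0
    obtain ⟨hv0, w, hw, hw'⟩ := REDA_div O φ hu (x₁ ^ 2 + x₁ * x₂ + x₂ ^ 2 + a) (y₁ + y₂) hv
    have g₁ : (y₁ : K) ^ 2 = (x₁ : K) ^ 3 + a * x₁ + b := by
      have := congrArg (Subtype.val) e₁
      simpa using this
    have g₂ : (y₂ : K) ^ 2 = (x₂ : K) ^ 3 + a * x₂ + b := by
      have := congrArg (Subtype.val) e₂
      simpa using this
    have hv1 : (y₁ : K) + y₂ ≠ 0 := by
      simpa using hv0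
    have hw1 : (w : K) = ((x₁ : K) ^ 2 + x₁ * x₂ + x₂ ^ 2 + a) / (y₁ + y₂) := by
      rw [hw]
      push_cast
      rfl
    refine ⟨w, ?_, ?_⟩
    · by_cases hxK : (x₁ : K) = x₂
      · have hyK : (y₁ : K) ≠ (crv K a b).negY (x₂ : K) (y₂ : K) := by
          intro h
          apply hv1
          rw [h]
          simp [crv, WeierstrassCurve.Affine.negY]
        have hyK2 : (y₁ : K) = y₂ := by
          have h3 : ((y₁ : K) - y₂) * (y₁ + y₂) = 0 := by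
            have : (y₁ : K) ^ 2 = (y₂ : K) ^ 2 := by rw [g₁, g₂, hxK]
            linear_combination this
          rcases mul_eq_zero.1 h3 with h | h
          · exact sub_eq_zero.1 h
          · exact absurd h hv1
        rw [WeierstrassCurve.Affine.slope_of_Y_ne hxK hyK, hw1]
        simp only [crv, WeierstrassCurve.Affine.negY]
        rw [← hxK, ← hyK2]
        congr 1
        · ring
        · ring
      · rw [WeierstrassCurve.Affine.slope_of_X_ne hxK, hw1, div_eq_div_iff hv1 (sub_ne_zero.2 hxK)]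
        linear_combination g₂ - g₁
    · have hyk : φ y₁ ≠ (crv k (φ a) (φ b)).negY (φ x₂) (φ y₂) := by
        have : (crv k (φ a) (φ b)).negY (φ x₂) (φ y₂) = - φ y₂ := by
          simp [crv, WeierstrassCurve.Affine.negY]
        rw [this]
        exact hy
      rw [WeierstrassCurve.Affine.slope_of_Y_ne hx hyk, hw']
      simp only [crv, WeierstrassCurve.Affine.negY, map_add, map_mul, map_pow]
      rw [← hx, ← hyy]
      congr 1
      · ring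
      · ring
  · have hv : φ (x₁ - x₂) ≠ 0 := by
      rw [map_sub]
      exact sub_ne_zero.2 hx
    obtain ⟨hv0, w, hw, hw'⟩ := REDA_div O φ hu (y₁ - y₂) (x₁ - x₂) hv
    have hxK : (x₁ : K) ≠ x₂ := by
      intro h
      apply hx
      have : x₁ = x₂ := Subtype.ext h
      rw [this]
    refine ⟨w, ?_, ?_⟩
    · rw [WeierstrassCurve.Affine.slope_of_X_ne hxK, hw]
      push_cast
      rfl
    · rw [WeierstrassCurve.Affine.slope_of_X_ne hx, hw', map_sub, map_sub]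

theorem reda : REDA := by
  intro K k _ _ _ _ O φ _ hu h2 a b hd x₁ y₁ x₂ y₂ h₁ h₂ hne
  have g₁ : (y₁ : K) ^ 2 = (x₁ : K) ^ 3 + a * x₁ + b := (reda_eq _ _ _ _).1 h₁.1
  have g₂ : (y₂ : K) ^ 2 = (x₂ : K) ^ 3 + a * x₂ + b := (reda_eq _ _ _ _).1 h₂.1
  have e₁ : y₁ ^ 2 = x₁ ^ 3 + a * x₁ + b := Subtype.ext (by push_cast; exact g₁)
  have e₂ : y₂ ^ 2 = x₂ ^ 3 + a * x₂ + b := Subtype.ext (by push_cast; exact g₂)
  have f₁ : φ y₁ ^ 2 = φ x₁ ^ 3 + φ a * φ x₁ + φ b := by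
    have := congrArg φ e₁
    simpa using this
  have f₂ : φ y₂ ^ 2 = φ x₂ ^ 3 + φ a * φ x₂ + φ b := by
    have := congrArg φ e₂
    simpa using this
  have h₁' := reda_ns h2 (φ a) (φ b) (φ x₁) (φ y₁) hd f₁
  have h₂' := reda_ns h2 (φ a) (φ b) (φ x₂) (φ y₂) hd f₂
  obtain ⟨l, hl, hl'⟩ := REDA_slope K k O φ hu h2 a b x₁ y₁ x₂ y₂ e₁ e₂ hne
  have hneK : ¬ ((x₁ : K) = x₂ ∧ (y₁ : K) = -y₂) := by
    rintro ⟨ha, hb⟩
    apply hne
    have ha' : x₁ = x₂ := Subtype.ext ha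
    have hb' : y₁ = -y₂ := Subtype.ext (by push_cast; exact hb)
    rw [ha', hb', map_neg]
    exact ⟨rfl, rfl⟩
  obtain ⟨h₃, hs⟩ := reda_add (F := K) (a : K) (b : K) (x₁ : K) (y₁ : K) (x₂ : K) (y₂ : K) (l : K)
    ((l ^ 2 - x₁ - x₂ : O) : K) ((-(l * ((l ^ 2 - x₁ - x₂) - x₁) + y₁) : O) : K) h₁ h₂ hneK hl
    (by push_cast; rfl) (by push_cast; rfl)
  obtain ⟨h₃', hs'⟩ := reda_add (F := k) (φ a) (φ b) (φ x₁) (φ y₁) (φ x₂) (φ y₂) (φ l)
    (φ (l ^ 2 - x₁ - x₂ : O)) (φ (-(l * ((l ^ 2 - x₁ - x₂) - x₁) + y₁) : O)) h₁' h₂' hne hl'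
    (by simp) (by simp)
  exact ⟨_, _, h₃, h₁', h₂', h₃', hs, hs'⟩

end Pool.Agent.H439DC
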